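import Mathlib
import Pool.Agent.H981R3.LN.Dat

set_option autoImplicit false

/-! # Lenstra's density formula for cyclotomic `F`, all `C`, all `k` and almost all cyclic `W`

Let `F = ℚ(ζ_f)`, let `C` be a set `A` of residue classes in `Gal(F/ℚ) = (ℤ/f)ˣ`, let `k ≥ 1`, and let
`D ≠ 0` be an integer.  For all but at most `N ^ θ` of the integers `n ≤ N` the number of primes `p ≤ x`
with Frobenius class in `C` modulo which the index of `W = ⟨D n⟩` divides `k` is within `ε π(x)` of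
`δ(f, A, k) π(x)`, at EVERY `x` with `N ^ C ≤ x ≤ exp ((log N) ^ (1 + c))`.  Here
`δ(f, A, k) = ∑_n μ(n) c(n) / (q(n) φ(lcm(f, q(n))))` is Lenstra's series: `q(n) φ(lcm(f, q(n)))` is the
degree of `F(ζ_{q(n)}, W^{1/q(n)})` when no root of a generator of `W` is entangled with roots of unity,
and `c(n)` is the number of elements of `C` that are trivial on `F ∩ ℚ(ζ_{q(n)})`.

Libraries: helper386 (Artin on average), helper771 (exceptional sets, all `x`), helper730 (primes in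
progressions); index condition, general `k`, main term: helper981. -/

namespace Pool.Agent.Results.MP_48b1c3_nt.CyclicOnAverage

open Finset Classical

/-- the number of primes `p ≤ x` whose class modulo `f` belongs to `A` and modulo which the subgroup
generated by `u` has an index dividing `k` (for `p ∣ u` the condition fails, as `k ≥ 1`) -/
noncomputable def S (f : ℕ) (A : Finset (ZMod f)ˣ) (k : ℕ) (u : ℤ) (x : ℕ) : ℕ :=
  ((Finset.range (x + 1)).filter (fun p : ℕ => p.Prime ∧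
    (∃ a ∈ A, ((p : ℕ) : ZMod f) = (a : ZMod f)) ∧ (p - 1) / orderOf (u : ZMod p) ∣ k)).card

/-- `q(n) = ∏_{ℓ ∣ n} ℓ ^ (ν_ℓ(k) + 1)` -/
def q (k n : ℕ) : ℕ := ∏ l ∈ n.primeFactors, l ^ (k.factorization l + 1)

/-- the number of `a ∈ A` with `a ≡ 1` modulo `gcd(f, m)` -/
def c (f : ℕ) (A : Finset (ZMod f)ˣ) (m : ℕ) : ℕ :=
  (A.filter fun a : (ZMod f)ˣ => (a : ZMod f).val ≡ 1 [MOD Nat.gcd f m]).card

/-- Lenstra's series `∑_n μ(n) c(n) / (q(n) φ(lcm(f, q(n))))` -/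
noncomputable def δ (f : ℕ) (A : Finset (ZMod f)ˣ) (k : ℕ) : ℝ :=
  ∑' n : ℕ, ((ArithmeticFunction.moebius n : ℤ) : ℝ) * (c f A (q k n) : ℝ) /
    ((q k n : ℝ) * (Nat.totient (Nat.lcm f (q k n)) : ℝ))

theorem result (θ C : ℝ) (hθ : 1 / 2 < θ) (hθ1 : θ < 1) (hC : 1 < C)
    (hCθ : θ * (1 - θ) < C * (2 * θ - 1)) :
    ∃ c : ℝ, 0 < c ∧ ∀ (f : ℕ) [NeZero f] (A : Finset (ZMod f)ˣ) (k : ℕ), 1 ≤ k →
      ∀ D : ℤ, D ≠ 0 → ∀ ε : ℝ, 0 < ε → ∃ N₀ : ℕ, ∀ N : ℕ, N₀ ≤ N →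
        (((Finset.Icc 1 N).filter (fun n : ℕ => ∃ x : ℕ, (N : ℝ) ^ C ≤ x ∧
          (x : ℝ) ≤ Real.exp ((Real.log N) ^ (1 + c)) ∧
          ε * (Nat.primeCounting x : ℝ) <
            |(S f A k (D * n) x : ℝ) - δ f A k * (Nat.primeCounting x : ℝ)|)).card : ℝ) ≤
          (N : ℝ) ^ θ := by
  obtain ⟨c₀, hc, h⟩ := Pool.Agent.H981R3.LN.lenstra θ C hθ hθ1 hC hCθ
  refine ⟨c₀, hc, fun f _ A k hk D hD ε hε => ?_⟩
  obtain ⟨N₁, h₁⟩ := h f A k hk D hD ε hε
  refine ⟨N₁, fun N hN => ?_⟩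
  refine le_trans (Nat.cast_le.2 (Finset.card_le_card ?_)) (h₁ N hN)
  intro m hm
  rw [Finset.mem_filter] at hm ⊢
  obtain ⟨h2, x, h3, h4, h5⟩ := hm
  refine ⟨h2, x, h3, h4, ?_⟩
  have e : S f A k (D * m) x = ((Finset.range (x + 1)).filter (fun p : ℕ => p.Prime ∧
      Pool.Agent.H981R3.LN.InA f A p ∧
        (p - 1) / orderOf ((D * (m : ℤ) : ℤ) : ZMod p) ∣ k)).card := by
    unfold S
    apply congrArg Finset.card
    apply Finset.filter_congr
    intro p _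
    rfl
  have e2 : δ f A k = Pool.Agent.H981R3.LN.lenD f A k := rfl
  rw [e, e2] at h5
  exact h5

end Pool.Agent.Results.MP_48b1c3_nt.CyclicOnAverage
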