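import Mathlib
import Pool.Agent.H981R3.LN2.Dat3

set_option autoImplicit false

/-! # Lenstra's density formula with quadratic entanglement: `W = ⟨D m ^ 2⟩`

Let `F = ℚ(ζ_f)`, let `C` be a set `A` of residue classes in `Gal(F/ℚ) = (ℤ/f)ˣ`, let `k ≥ 1`, and let
`D ≠ 0` be an integer.  For all but at most `N ^ θ` of the integers `m ≤ N` the number of primes `p ≤ x`
with Frobenius class in `C` modulo which the index of `W = ⟨D m ^ 2⟩` divides `k` is within `ε π(x)` of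
`δ(f, A, k, D) π(x)`, at EVERY `x` with `N ^ C ≤ x ≤ exp ((log N) ^ (1 + c))`.  Here, with
`h = lcm(f, 4 |D|)`, `δ(f, A, k, D) = ∑_n μ(n) c(n) / (r(n) φ(lcm(h, q(n))))` is Lenstra's series, in which
now `√D ∈ ℚ(W^{1/q(n)})` for even `n`: the Kummer degree is `r(n) = q(n) / 2` over `ℚ(ζ_{lcm(h, q(n))})`
for even `n`, and the classes counted by `c(n)` must be split in `ℚ(√D)`.

Libraries: helper386 (Artin on average), helper771 (exceptional sets, all `x`), helper730 (primes in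
progressions); index condition, local counts, main term: helper981. -/

namespace Pool.Agent.Results.MP_48b1c3_nt.EntangledOnAverage

open Finset Classical

/-- the number of primes `p ≤ x` whose class modulo `f` belongs to `A` and modulo which the subgroup
generated by `u` has an index dividing `k` (for `p ∣ u` the condition fails, as `k ≥ 1`) -/
noncomputable def S (f : ℕ) (A : Finset (ZMod f)ˣ) (k : ℕ) (u : ℤ) (x : ℕ) : ℕ :=
  ((Finset.range (x + 1)).filter (fun p : ℕ => p.Prime ∧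
    (∃ a ∈ A, ((p : ℕ) : ZMod f) = (a : ZMod f)) ∧ (p - 1) / orderOf (u : ZMod p) ∣ k)).card

/-- `q(n) = ∏_{ℓ ∣ n} ℓ ^ (ν_ℓ(k) + 1)` -/
def q (k n : ℕ) : ℕ := ∏ l ∈ n.primeFactors, l ^ (k.factorization l + 1)

/-- `r(n) = q(n)` for odd `n`, `r(n) = q(n) / 2` for even `n` -/
noncomputable def r (k n : ℕ) : ℝ := if 2 ∣ n then (q k n : ℝ) / 2 else (q k n : ℝ)

/-- `h = lcm(f, 4 |D|)` -/
def h (f : ℕ) (D : ℤ) : ℕ := Nat.lcm f (4 * D.natAbs)

/-- the number of classes `v` modulo `h`, prime to `h`, which belong to `A` modulo `f`, are `≡ 1`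
modulo `gcd(h, q(n))` and, for even `n`, have Jacobi symbol `(D/v) = 1` -/
noncomputable def c (f : ℕ) (A : Finset (ZMod f)ˣ) (D : ℤ) (k n : ℕ) : ℕ :=
  ((Finset.range (h f D)).filter fun v : ℕ => Nat.Coprime v (h f D) ∧
    (∃ a ∈ A, ((v : ℕ) : ZMod f) = (a : ZMod f)) ∧ v ≡ 1 [MOD Nat.gcd (h f D) (q k n)] ∧
      (2 ∣ n → jacobiSym D v = 1)).card

/-- Lenstra's series `∑_n μ(n) c(n) / (r(n) φ(lcm(h, q(n))))` -/
noncomputable def δ (f : ℕ) (A : Finset (ZMod f)ˣ) (k : ℕ) (D : ℤ) : ℝ :=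
  ∑' n : ℕ, ((ArithmeticFunction.moebius n : ℤ) : ℝ) * (c f A D k n : ℝ) /
    (r k n * (Nat.totient (Nat.lcm (h f D) (q k n)) : ℝ))

lemma units_count {M : ℕ} [NeZero M] (B : Finset (ZMod M)ˣ) (P : ℕ → Prop) (m : ℕ)
    (hB : ∀ a : (ZMod M)ˣ, a ∈ B ↔ P (a : ZMod M).val) (T : Finset ℕ)
    (hT : ∀ v, v ∈ T ↔ v < M ∧ Nat.Coprime v M ∧ P v ∧ v ≡ 1 [MOD Nat.gcd M m]) :
    Pool.Agent.H981R3.LN.cA M B m = T.card := by
  unfold Pool.Agent.H981R3.LN.cA
  refine Finset.card_bij (fun a _ => (a : ZMod M).val) ?_ ?_ ?_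
  · intro a ha
    rw [mem_filter] at ha
    rw [hT]
    exact ⟨ZMod.val_lt _, ZMod.val_coe_unit_coprime a, (hB a).1 ha.1, ha.2⟩
  · intro a _ b _ hab
    exact Units.ext (ZMod.val_injective M hab)
  · intro v hv
    rw [hT] at hv
    obtain ⟨h1, h2, h3, h4⟩ := hv
    have e : ((ZMod.unitOfCoprime v h2 : (ZMod M)ˣ) : ZMod M).val = v := by
      rw [ZMod.coe_unitOfCoprime, ZMod.val_natCast, Nat.mod_eq_of_lt h1]
    refine ⟨ZMod.unitOfCoprime v h2, ?_, e⟩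
    rw [mem_filter, hB, e]
    exact ⟨h3, h4⟩

lemma δ_eq (f : ℕ) [NeZero f] (A : Finset (ZMod f)ˣ) (k : ℕ) (D : ℤ)
    [NeZero (Pool.Agent.H981R3.LN2.fD f D)] :
    δ f A k D = Pool.Agent.H981R3.LN2.lenD2 f A D k := by
  unfold δ Pool.Agent.H981R3.LN2.lenD2
  apply tsum_congr
  intro n
  unfold Pool.Agent.H981R3.LN2.term2 Pool.Agent.H981R3.LN.term
  have hq : Pool.Agent.H981R3.LN.Qn k n = q k n := rfl
  have hh : Pool.Agent.H981R3.LN2.fD f D = h f D := rfl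
  have c1 : 2 ∣ n → Pool.Agent.H981R3.LN.cA (Pool.Agent.H981R3.LN2.fD f D)
      (Pool.Agent.H981R3.LN2.A1 f A D) (q k n) = c f A D k n := by
    intro h2
    unfold c
    refine units_count (Pool.Agent.H981R3.LN2.A1 f A D)
      (fun v => (∃ a ∈ A, ((v : ℕ) : ZMod f) = (a : ZMod f)) ∧ jacobiSym D v = 1) (q k n)
      (fun a => ?_) _ (fun v => ?_)
    · unfold Pool.Agent.H981R3.LN2.A1
      simp only [mem_filter, mem_univ, true_and]
      exact Iff.rfl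
    · simp only [mem_filter, mem_range]
      constructor
      · rintro ⟨a1, a2, a3, a5, a4⟩
        exact ⟨a1, a2, ⟨a3, a4 h2⟩, a5⟩
      · rintro ⟨a1, a2, ⟨a3, a4⟩, a5⟩
        exact ⟨a1, a2, a3, a5, fun _ => a4⟩
  have c0 : ¬ 2 ∣ n → Pool.Agent.H981R3.LN.cA (Pool.Agent.H981R3.LN2.fD f D)
      (Pool.Agent.H981R3.LN2.A0 f A D) (q k n) = c f A D k n := by
    intro h2
    unfold c
    refine units_count (Pool.Agent.H981R3.LN2.A0 f A D)
      (fun v => (∃ a ∈ A, ((v : ℕ) : ZMod f) = (a : ZMod f))) (q k n)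
      (fun a => ?_) _ (fun v => ?_)
    · unfold Pool.Agent.H981R3.LN2.A0
      simp only [mem_filter, mem_univ, true_and]
      exact Iff.rfl
    · simp only [mem_filter, mem_range]
      constructor
      · rintro ⟨a1, a2, a3, a5, _⟩
        exact ⟨a1, a2, a3, a5⟩
      · rintro ⟨a1, a2, a3, a5⟩
        exact ⟨a1, a2, a3, a5, fun h => absurd h h2⟩
  rw [hq]
  unfold r
  split_ifs with h2
  · rw [c1 h2, hh, div_mul_eq_mul_div, div_div_eq_mul_div]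
    ring
  · rw [c0 h2, hh]

theorem result (θ C : ℝ) (hθ : 1 / 2 < θ) (hθ1 : θ < 1) (hC : 1 < C)
    (hCθ : θ * (1 - θ) < C * (2 * θ - 1)) :
    ∃ c : ℝ, 0 < c ∧ ∀ (f : ℕ) [NeZero f] (A : Finset (ZMod f)ˣ) (k : ℕ), 1 ≤ k →
      ∀ D : ℤ, D ≠ 0 → ∀ ε : ℝ, 0 < ε → ∃ N₀ : ℕ, ∀ N : ℕ, N₀ ≤ N →
        (((Finset.Icc 1 N).filter (fun m : ℕ => ∃ x : ℕ, (N : ℝ) ^ C ≤ x ∧
          (x : ℝ) ≤ Real.exp ((Real.log N) ^ (1 + c)) ∧
          ε * (Nat.primeCounting x : ℝ) <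
            |(S f A k (D * (m : ℤ) ^ 2) x : ℝ) -
              δ f A k D * (Nat.primeCounting x : ℝ)|)).card : ℝ) ≤
          (N : ℝ) ^ θ := by
  obtain ⟨c₀, hc, hmain⟩ := Pool.Agent.H981R3.LN2.lenstra2 θ C hθ hθ1 hC hCθ
  refine ⟨c₀, hc, fun f _ A k hk D hD ε hε => ?_⟩
  have hfD : NeZero (Pool.Agent.H981R3.LN2.fD f D) := ⟨Pool.Agent.H981R3.LN2.fD_ne hD⟩
  obtain ⟨N₁, h₁⟩ := hmain f A k hk D hD ε hε
  refine ⟨N₁, fun N hN => ?_⟩
  refine le_trans (Nat.cast_le.2 (Finset.card_le_card ?_)) (h₁ N hN)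
  intro m hm
  rw [Finset.mem_filter] at hm ⊢
  obtain ⟨h2, x, h3, h4, h5⟩ := hm
  refine ⟨h2, x, h3, h4, ?_⟩
  have e : S f A k (D * (m : ℤ) ^ 2) x = ((Finset.range (x + 1)).filter (fun p : ℕ => p.Prime ∧
      Pool.Agent.H981R3.LN.InA f A p ∧
        (p - 1) / orderOf ((D * (m : ℤ) ^ 2 : ℤ) : ZMod p) ∣ k)).card := by
    unfold S
    apply congrArg Finset.card
    apply Finset.filter_congr
    intro p _
    rfl
  rw [e, δ_eq f A k D] at h5
  exact h5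

end Pool.Agent.Results.MP_48b1c3_nt.EntangledOnAverage
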