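import Mathlib
import Pool.Agent.H74R6.LW.Fin

set_option autoImplicit false

/-! # The formula of Lenstra for an arbitrary Galois extension and a group with one varying generator

Let `F` be any finite Galois extension of the rationals, `C = {1}`, `k ≥ 1`, and let `W` be an arbitrary
finite set of nonzero rational numbers and `D` a nonzero integer, all fixed.  For the subgroup of `ℚˣ`
generated by `W` and `D m`, the set of Lenstra has, for almost all `m`, the density

`δ = ∑ μ(n) / (q(n) [F L_n : ℚ]) > 0`, `L_n = ℚ(ζ_{q(n)}, W ^ (1 / q(n)))`: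

the exceptional set has at most `N ^ θ` elements `m ≤ N`, simultaneously for all `x` of a
super-polynomial range.  The factor `q(n)` is the generic contribution of the generator `D m` to the degree
of the field of Lenstra; all the entanglement among `F`, the roots of unity and the radicals of `W` is in
the degree `[F L_n : ℚ]`. -/

namespace Pool.Agent.Results.MP_48b1c3_nt.FixedSubgroup

open Polynomial NumberField Classical

/-- `q(n) = ∏_{l ∣ n} l ^ (ν_l(k) + 1)` -/
def q (k n : ℕ) : ℕ := ∏ l ∈ n.primeFactors, l ^ (k.factorization l + 1)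

/-- the degree over the rationals of `F(ζ_r, W ^ (1 / r))`, the splitting field over `F` of
`(X ^ r - 1) ∏_{a ∈ W} (X ^ r - a)` -/
noncomputable def deg (F : Type) [Field F] [NumberField F] (W : Finset ℚ) (r : ℕ) : ℕ :=
  Module.finrank ℚ F * Module.finrank F
    (SplittingField ((X ^ r - 1) * ∏ a ∈ W, (X ^ r - C (a : F)) : F[X]))

/-- the density -/
noncomputable def δ (F : Type) [Field F] [NumberField F] (W : Finset ℚ) (k : ℕ) : ℝ :=
  ∑' n : ℕ, ((ArithmeticFunction.moebius n : ℤ) : ℝ) / ((q k n : ℝ) * (deg F W (q k n) : ℝ))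

/-- the number of primes `p ≤ x` which split completely in `F` (there are `[F : ℚ]` homomorphisms from
the ring of integers to `ZMod p`), at which the elements of `W` and the integer `u` are units, and for
which the index of the image of the group generated by `W` and `u` in `(ZMod p)ˣ` divides `k` -/
noncomputable def S (F : Type) [Field F] [NumberField F] (W : Finset ℚ) (k : ℕ) (u : ℤ) (x : ℕ) : ℕ :=
  ((Finset.range (x + 1)).filter (fun p : ℕ => p.Prime ∧
    Nat.card (𝓞 F →+* ZMod p) = Module.finrank ℚ F ∧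
    (∀ a ∈ W, (a.num : ZMod p) ≠ 0 ∧ (a.den : ZMod p) ≠ 0) ∧ (u : ZMod p) ≠ 0 ∧
    (Subgroup.closure {v : (ZMod p)ˣ |
      (∃ a ∈ W, (v : ZMod p) * (a.den : ZMod p) = (a.num : ZMod p)) ∨
        (v : ZMod p) = (u : ZMod p)}).index ∣ k)).card

theorem result (θ C : ℝ) (hθ : 1 / 2 < θ) (hθ1 : θ < 1) (hC : 1 < C)
    (hCθ : θ * (1 - θ) < C * (2 * θ - 1)) :
    ∃ κ : ℝ, 0 < κ ∧ ∀ (F : Type) [Field F] [NumberField F], IsGalois ℚ F →
      ∀ W : Finset ℚ, (∀ a ∈ W, a ≠ 0) → ∀ k : ℕ, 1 ≤ k → 0 < δ F W k ∧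
      ∀ D : ℤ, D ≠ 0 → ∀ ε : ℝ, 0 < ε →
      ∃ N₀ : ℕ, ∀ N : ℕ, N₀ ≤ N →
        (((Finset.Icc 1 N).filter (fun m : ℕ => ∃ x : ℕ, (N : ℝ) ^ C ≤ x ∧
          (x : ℝ) ≤ Real.exp ((Real.log N) ^ (1 + κ)) ∧
          ε * (Nat.primeCounting x : ℝ) <
            |(S F W k (D * (m : ℤ)) x : ℝ) - δ F W k * (Nat.primeCounting x : ℝ)|)).card : ℝ)
          ≤ (N : ℝ) ^ θ := by
  obtain ⟨κ, hκ, hall⟩ := Pool.Agent.H771R4.SE.allX2 θ C hθ hθ1 hC hCθ
  refine ⟨κ, hκ, fun F _ _ hG W hW k hk => ⟨?_, fun D hD ε hε => ?_⟩⟩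
  · obtain ⟨d, -, hA, hpos⟩ := Pool.Agent.H74R6.LW.main F hG W hW k (by omega) 1 one_ne_zero
    rw [hA] at hpos
    exact hpos
  obtain ⟨d, hQ, hA, -⟩ := Pool.Agent.H74R6.LW.main F hG W hW k (by omega) D hD
  obtain ⟨N₀, hN₀⟩ := hall d ε hε
  refine ⟨N₀, fun N hN => ?_⟩
  refine le_trans (Nat.cast_le.2 (Finset.card_le_card ?_)) (hN₀ N hN)
  intro m hm
  rw [Finset.mem_filter] at hm
  unfold Pool.Agent.H771R4.SE.badY
  rw [Finset.mem_filter]
  obtain ⟨h2, x, h3, h4, h5⟩ := hm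
  refine ⟨h2, x, h3, h4, ?_⟩
  have e1 : d.A = δ F W k := by
    rw [hA]
    rfl
  have e2 : S F W k (D * (m : ℤ)) x = Pool.Agent.H771R4.SE.cntE d m x := by
    unfold S Pool.Agent.H771R4.SE.cntE
    apply congrArg Finset.card
    ext p
    simp only [Finset.mem_filter, hQ, Pool.Agent.H74R6.LW.UU, Int.cast_mul, Int.cast_natCast,
      and_assoc]
  rw [e1]
  rw [e2] at h5
  exact h5

end Pool.Agent.Results.MP_48b1c3_nt.FixedSubgroup
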